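import Pool.Agent.Lib.MP_56aee0_co.RW.Cores

/-!
# The product inequality for the eternal domination number: sets which are not outside-secure, and the chip game

`edn` (file `Edn.lean`) is the eternal domination number of the problem; `OutSec G Q A` and `gs H` are defined in `RW/Base.lean`.
-/

set_option autoImplicit false

namespace Pool.Agent.Results.MP_56aee0_co.ChipGame

open Pool.Agent.Lib.MP_56aee0_co Pool.Agent.Lib.MP_56aee0_co.OC Pool.Agent.Lib.MP_56aee0_co.RW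

/-- (1) Let `I` be an independent set of `G` and `Q_1, …, Q_q` regions of `G`, pairwise disjoint and not adjacent (also to `I`), with
independent sets `A_i ⊆ Q_i` such that the guards on `A_i` cannot defend `Q_i` against attacks outside `A_i`. Then
`γ^∞(G □ H) ≥ (|I| + ∑ |A_i|) γ^∞(H) + q gs(H)` for every `H`. (2) `α(H) ≤ gs(H) ≤ γ^∞(H)`, `gs(H) = γ^∞(H)` if `γ^∞(H) ≤ 3`, and
`gs(C_{2b+1}) ≥ b + 1`. (3) Every `G` with `γ^∞(G) ≥ 3` has an independent set with two elements which is not outside-secure, and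
`{0, 2, …, 2b-2}` is such a set in the odd cycle. (4) The product inequality holds if `γ^∞(G) ≤ 3` and `γ^∞(H) ≤ gs(H)`, in particular if
`γ^∞(G) ≤ 3` and `γ^∞(H) ≤ 3`. -/
theorem result :
    (∀ (U W : Type) [Fintype U] [DecidableEq U] [Fintype W] [DecidableEq W] (G : SimpleGraph U)
      (H : SimpleGraph W) (q : ℕ) (I : Finset U) (Q A : Fin q → Finset U),
      (∀ u ∈ I, ∀ v ∈ I, ¬ G.Adj u v) →
      (∀ i, ∀ u ∈ I, ∀ v ∈ Q i, u ≠ v ∧ ¬ G.Adj u v) →
      (∀ i j, i ≠ j → ∀ u ∈ Q i, ∀ v ∈ Q j, u ≠ v ∧ ¬ G.Adj u v) →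
      (∀ i, A i ⊆ Q i) → (∀ i, ∀ u ∈ A i, ∀ v ∈ A i, ¬ G.Adj u v) → (∀ i, ¬ OutSec G (Q i) (A i)) →
      (I.card + ∑ i, (A i).card) * edn H + q * gs H ≤ edn (G.boxProd H)) ∧
    (∀ (W : Type) [Fintype W] [DecidableEq W] (H : SimpleGraph W),
      H.indepNum ≤ gs H ∧ gs H ≤ edn H ∧ (edn H ≤ 3 → gs H = edn H)) ∧
    (∀ b : ℕ, 2 ≤ b → b + 1 ≤ gs (SimpleGraph.cycleGraph (2 * b + 1)) ∧
      ¬ OutSec (SimpleGraph.cycleGraph (2 * b + 1)) Finset.univ (Iv b)) ∧
    (∀ (U : Type) [Fintype U] [DecidableEq U] (G : SimpleGraph U), 3 ≤ edn G →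
      ∃ A : Finset U, A.card = 2 ∧ (∀ u ∈ A, ∀ v ∈ A, ¬ G.Adj u v) ∧ ¬ OutSec G Finset.univ A) ∧
    (∀ (U W : Type) [Fintype U] [DecidableEq U] [Fintype W] [DecidableEq W] (G : SimpleGraph U)
      (H : SimpleGraph W), edn G ≤ 3 → (edn H ≤ gs H ∨ edn H ≤ 3) →
      edn G * edn H ≤ edn (G.boxProd H)) := by
  refine ⟨fun U W _ _ _ _ G H q I Q A hI hIQ hQQ hAQ hA hns => cores_bound H I Q A hI hIQ hQQ hAQ hA hns, ?_,
    fun b hb => ⟨gs_odd_cycle hb, cyc_not_outSec hb⟩, fun U _ _ G h => exists_not_outSec h, ?_⟩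
  · intro W _ _ H
    refine ⟨?_, gs_le_edn H, fun h => le_antisymm (gs_le_edn H) (edn_le_gs_of_le_three h)⟩
    obtain ⟨I, hI⟩ := H.exists_isNIndepSet_indepNum
    rw [← hI.card_eq]
    exact card_le_gs (fun x hx y hy hadj => hI.isIndepSet hx hy hadj.ne hadj)
  · intro U W _ _ _ _ G H hG hH
    refine q1_of_le_three hG ?_
    rcases hH with hH | hH
    · exact hH
    · exact edn_le_gs_of_le_three hH

end Pool.Agent.Results.MP_56aee0_co.ChipGame
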