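import Pool.Agent.Lib.MP_56aee0_co.KF.FinalK

/-!
# The eternal domination number of the Cartesian product with a power of a cycle

`edn` (file `Edn.lean`) is the eternal domination number of the problem. `kedn H k` (file `KF/Base.lean`) is the `k`-fold
number: several guards may stand on a vertex, and an attack on a vertex with fewer than `k` guards must be answered by a
guard of a neighbour. `cpow n q`: the vertices `0, …, n-1` of a cycle, adjacent iff their distance is between `1` and `q - 1`.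
-/

set_option autoImplicit false

namespace Pool.Agent.Results.MP_56aee0_co.CyclePowers

open Pool.Agent.Lib.MP_56aee0_co Pool.Agent.Lib.MP_56aee0_co.KF

/-- (1) `γ^∞(H □ G) ≥ γ^∞_k(H)` with `k = γ^∞(G)`. (2) `γ^∞_k(C_n^{q-1}) ≥ n k / q` for `n ≥ 2 q`.
(3) `γ^∞(C_n^{q-1} □ G) ≥ (n / q) γ^∞(G)` for every graph `G`. (4) The product inequality for `C_n^{q-1}`, `n = b q + r`, and
every `G` with `(q - r) γ^∞(G) < q`. (5) `γ^∞(C_n □ G) ≥ (n / 2) γ^∞(G)` for every cycle of length `n ≥ 4`. -/
theorem result :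
    (∀ (V W : Type) [Fintype V] [DecidableEq V] [Fintype W] [DecidableEq W] (H : SimpleGraph V)
      (G : SimpleGraph W), kedn H (edn G) ≤ edn (H.boxProd G)) ∧
    (∀ n q k : ℕ, 1 ≤ q → 2 * q ≤ n → n * k ≤ q * kedn (cpow n q) k) ∧
    (∀ n q : ℕ, 1 ≤ q → 2 * q ≤ n → ∀ (W : Type) [Fintype W] [DecidableEq W] (G : SimpleGraph W),
      n * edn G ≤ q * edn ((cpow n q).boxProd G)) ∧
    (∀ n q b r : ℕ, 1 ≤ q → r ≤ q → n = b * q + r → 2 * q ≤ n →
      ∀ (W : Type) [Fintype W] [DecidableEq W] (G : SimpleGraph W), (q - r) * edn G < q →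
      edn (cpow n q) * edn G ≤ edn ((cpow n q).boxProd G)) ∧
    (∀ n : ℕ, 4 ≤ n → ∀ (W : Type) [Fintype W] [DecidableEq W] (G : SimpleGraph W),
      n * edn G ≤ 2 * edn ((SimpleGraph.cycleGraph n).boxProd G)) := by
  refine ⟨fun V W _ _ _ _ H G => kedn_le_edn H G, fun n q k hq hn => kedn_cpow hq hn k,
    fun n q hq hn W _ _ G => edn_cpow_prod hq hn G,
    fun n q b r hq hr hn hb W _ _ G hk => q1_cpow hq hr hn hb G hk, ?_⟩
  intro n hn W _ _ G
  have h := edn_cpow_prod (n := n) (q := 2) (by omega) (by omega) G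
  rw [cpow_two hn] at h
  exact h

end Pool.Agent.Results.MP_56aee0_co.CyclePowers
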