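import Pool.Agent.Lib.MP_56aee0_co.OC.Red

/-!
# The product inequality for the eternal domination number: odd cycles

`edn` (file `Edn.lean`) is the eternal domination number of the problem, `ednOn G S` (file `OC/Base.lean`) is the same number
for the region `S` of `G` (attacks and guards only in `S`), the class `Red` is defined in `OC/Red.lean`.
-/

set_option autoImplicit false

namespace Pool.Agent.Results.MP_56aee0_co.OddCycleFactor

open Pool.Agent.Lib.MP_56aee0_co Pool.Agent.Lib.MP_56aee0_co.OC

/-- (1) If `γ^∞(X) > α(X)`, then `γ^∞(C_{2b+1} □ X) ≥ b γ^∞(X) + α(X) + 1` (`b ≥ 2`).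
(2) `γ^∞(G □ X) ≥ γ^∞(G) γ^∞(X)` for all `X` with `γ^∞(X) ≤ α(X) + 1` and all `G` in the class `Red`.
(3) The odd cycles of length at least 5 and the graphs with `γ^∞ ≤ α` belong to the class. -/
theorem result :
    (∀ b : ℕ, 2 ≤ b → ∀ (W : Type) [Fintype W] [DecidableEq W] (X : SimpleGraph W), X.indepNum < edn X →
      b * edn X + X.indepNum + 1 ≤ edn ((SimpleGraph.cycleGraph (2 * b + 1)).boxProd X)) ∧
    (∀ (U W : Type) [Fintype U] [DecidableEq U] [Fintype W] [DecidableEq W] (G : SimpleGraph U)
      (X : SimpleGraph W), Red G Finset.univ → edn X ≤ X.indepNum + 1 →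
      edn G * edn X ≤ edn (G.boxProd X)) ∧
    (∀ b : ℕ, 2 ≤ b → Red (SimpleGraph.cycleGraph (2 * b + 1)) Finset.univ) ∧
    (∀ (U : Type) [Fintype U] [DecidableEq U] (G : SimpleGraph U), edn G ≤ G.indepNum → Red G Finset.univ) := by
  refine ⟨fun b hb W _ _ X h => odd_cycle_bound hb X h, fun U W _ _ _ _ G X h hX => red_main h X hX, ?_, ?_⟩
  · intro b hb
    refine Red.cyc Finset.univ Finset.univ b hb (Function.Embedding.refl _) (fun u v => Iff.rfl)
      (Finset.Subset.refl _) (fun u => Finset.mem_univ _) (fun u v hv _ => hv) ?_ ?_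
    · rw [← edn_eq_ednOn]
      exact edn_odd_cycle_le hb
    · rw [sdiff_self]
      exact Red.empty
  · intro U _ _ G h
    obtain ⟨I, hI⟩ := G.exists_isNIndepSet_indepNum
    refine Red.ind Finset.univ Finset.univ I (Finset.Subset.refl _) (Finset.subset_univ _)
      (fun i hi j hj hadj => hI.isIndepSet hi hj hadj.ne hadj) (fun i _ v hv _ => hv) ?_ ?_
    · rw [← edn_eq_ednOn, hI.card_eq]
      exact h
    · rw [sdiff_self]
      exact Red.empty

end Pool.Agent.Results.MP_56aee0_co.OddCycleFactor
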