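import Pool.Agent.Lib.MP_56aee0_co.TC.Prod

/-!
# The product inequality for the eternal domination number of 3-colourable graphs
-/

set_option autoImplicit false

namespace Pool.Agent.Results.MP_56aee0_co.ThreeColourable

open Pool.Agent.Lib.MP_56aee0_co Pool.Agent.Lib.MP_56aee0_co.TC

/-- Products of 3-colourable graphs (1); more generally of graphs with homomorphisms to one Cayley graph of a finite
abelian group with an independent set `I` of more than 8/25 of the elements (2); of 4-colourable graphs with perfect
matchings (3); the product inequality up to a factor for `k`-colourable graphs (4); connected vertex-critical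
graphs (5). -/
theorem result :
    (∀ (V W : Type) [Fintype V] [DecidableEq V] [Fintype W] [DecidableEq W]
      (G : SimpleGraph V) (H : SimpleGraph W), G.Colorable 3 → H.Colorable 3 →
      edn G * edn H ≤ edn (G.boxProd H)) ∧
    (∀ (V W A : Type) [Fintype V] [DecidableEq V] [Fintype W] [DecidableEq W]
      [AddCommGroup A] [Fintype A] (G : SimpleGraph V) (H : SimpleGraph W) (I : Finset A)
      (φ : V → A) (ψ : W → A),
      (∀ u v, G.Adj u v → ∀ x ∈ I, ∀ y ∈ I, x - y ≠ φ u - φ v) →
      (∀ u v, H.Adj u v → ∀ x ∈ I, ∀ y ∈ I, x - y ≠ ψ u - ψ v) →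
      8 * Fintype.card A < 25 * I.card →
      edn G * edn H ≤ edn (G.boxProd H)) ∧
    (∀ (V W : Type) [Fintype V] [DecidableEq V] [Fintype W] [DecidableEq W]
      (G : SimpleGraph V) (H : SimpleGraph W), G.Colorable 4 → H.Colorable 4 →
      (∃ M : G.Subgraph, M.IsPerfectMatching) → (∃ M : H.Subgraph, M.IsPerfectMatching) →
      edn G * edn H ≤ edn (G.boxProd H)) ∧
    (∀ (V W : Type) [Fintype V] [DecidableEq V] [Fintype W] [DecidableEq W]
      (G : SimpleGraph V) (H : SimpleGraph W) (k : ℕ), 3 ≤ k → G.Colorable k → H.Colorable k →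
      25 * (edn G * edn H) ≤ 9 * k * edn (G.boxProd H)) ∧
    (∀ (V : Type) [Fintype V] [DecidableEq V] (G : SimpleGraph V), G.Connected →
      (∀ v, edn (G.induce ({v}ᶜ : Set V)) < edn G) → 2 * edn G ≤ Fintype.card V + 1) := by
  refine ⟨?_, ?_, ?_, ?_, ?_⟩
  · intro V W _ _ _ _ G H hG hH
    obtain ⟨C⟩ := hG
    obtain ⟨D⟩ := hH
    refine product_inequality (A := ZMod 3) G H {0} _ _ (colour_hom G C) (colour_hom H D) ?_
    rw [Finset.card_singleton, ZMod.card]
    norm_num
  · intro V W A _ _ _ _ _ _ G H I φ ψ hφ hψ hI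
    exact product_inequality G H I φ ψ hφ hψ hI
  · intro V W _ _ _ _ G H hG hH hM hN
    obtain ⟨C⟩ := hG
    obtain ⟨D⟩ := hH
    refine product_inequality_matching (A := ZMod 4) G H {0} _ _ (colour_hom G C)
      (colour_hom H D) ?_ (two_mul_edn_le_of_matching G hM) (two_mul_edn_le_of_matching H hN)
    rw [Finset.card_singleton, ZMod.card]
  · intro V W _ _ _ _ G H k hk hG hH
    obtain ⟨C⟩ := hG
    obtain ⟨D⟩ := hH
    have : NeZero k := ⟨by omega⟩
    have h := product_inequality_approx (A := ZMod k) G H {0} _ _ (colour_hom G C)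
      (colour_hom H D) (by
        rw [Finset.card_singleton, ZMod.card]
        omega)
    rwa [Finset.card_singleton, ZMod.card, mul_one] at h
  · intro V _ _ G hc hv
    exact gallai G hc hv

end Pool.Agent.Results.MP_56aee0_co.ThreeColourable
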